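import Pool.Agent.Y398.KZ.Stm2

/-!
Project KZN (MP_8ede36_co), job KZN-MAIN: the double counting.
-/

namespace Pool.Agent.Y385.KZN

open scoped ComplexConjugate
open Pool.Agent.Y398.KZN

/-- The norm of `uv t` is one (normSq form). -/
theorem uv_mul_conj (t : ℝ) : uv t * conj (uv t) = 1 := by
  have h : (1 + t ^ 2) ≠ 0 := by positivity
  apply Complex.ext
  · simp only [uv, Complex.mul_re, Complex.conj_re, Complex.conj_im, Complex.one_re]
    field_simp
    ring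
  · simp only [uv, Complex.mul_im, Complex.conj_re, Complex.conj_im, Complex.one_im]
    ring

theorem norm_uv (t : ℝ) : ‖uv t‖ = 1 := by
  have h := uv_mul_conj t
  have h2 : ‖uv t‖ * ‖uv t‖ = 1 := by
    have := congrArg norm h
    simpa using this
  nlinarith [norm_nonneg (uv t)]

theorem norm_le_re_im (w : ℂ) (t : ℝ) : ‖w‖ ≤ |re' w (uv t)| + |im' w (uv t)| := by
  have h : ‖w‖ = ‖w * conj (uv t)‖ := by
    rw [norm_mul, Complex.norm_conj, norm_uv, mul_one]
  rw [h]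
  exact Complex.norm_le_abs_re_add_abs_im _

theorem re'_sub_smul (w : ℂ) (i : ℝ) (t : ℝ) : re' (w - i * uv t) (uv t) = re' w (uv t) - i := by
  unfold re'
  rw [sub_mul, mul_assoc, uv_mul_conj]
  simp

theorem im'_sub_smul (w : ℂ) (i : ℝ) (t : ℝ) : im' (w - i * uv t) (uv t) = im' w (uv t) := by
  unfold im'
  rw [sub_mul, mul_assoc, uv_mul_conj]
  simp

/-- The real inequality at the end. -/
theorem final_ineq (E Jr Kr m q s X : ℝ) (hE : 1 ≤ E) (hJ : 1 ≤ Jr) (hK : 0 < Kr)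
    (hm : 0 < m) (hq : 0 < q) (hX : 0 < X)
    (hs2 : s ^ 2 = 80 * E / Jr)
    (h : m * m * Kr * q / 2 ≤ (36 * m ^ 2 * X) * (2 * Kr * q * 900 * E ^ 2 * s)) :
    Jr ≤ 10 ^ 18 * X ^ 2 * E ^ 5 := by
  have h1 : 1 ≤ 129600 * X * E ^ 2 * s := by
    have hpos : 0 < m * m * Kr * q / 2 := by positivity
    have h2 : (m * m * Kr * q / 2) * 1 ≤ (m * m * Kr * q / 2) * (129600 * X * E ^ 2 * s) := by
      calc (m * m * Kr * q / 2) * 1 = m * m * Kr * q / 2 := by ring
        _ ≤ _ := h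
        _ = _ := by ring
    exact le_of_mul_le_mul_left h2 hpos
  have h3 : 1 ≤ (129600 * X * E ^ 2 * s) ^ 2 := one_le_pow₀ h1
  have h4 : (129600 * X * E ^ 2 * s) ^ 2 = 129600 ^ 2 * X ^ 2 * E ^ 4 * (80 * E / Jr) := by
    rw [← hs2]; ring
  rw [h4] at h3
  have hJ0 : 0 < Jr := by linarith
  have h5 : 129600 ^ 2 * X ^ 2 * E ^ 4 * (80 * E / Jr) =
      (129600 ^ 2 * 80 * X ^ 2 * E ^ 5) / Jr := by
    field_simp
  rw [h5, le_div_iff₀ hJ0, one_mul] at h3
  have h6 : 0 < X ^ 2 * E ^ 5 := by positivity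
  nlinarith

theorem t_MAINN (hLAT : S_LAT) (hDIR : S_DIR) (hCELL : S_CELL) (hPATHS : S_PATHS)
    (hSCALE : S_SCALE) : S_MAINN := by
  classical
  intro V G f R E Δ J H hJ hEJ hR
  have hE : 1 ≤ E := H.one_le_E
  have hΔ : 2 ≤ Δ := H.two_le
  set Q : ℝ := (4 : ℝ) ^ J with hQ
  have hQ1 : 4 ≤ Q := by
    have : (4 : ℝ) ^ 1 ≤ 4 ^ J := pow_le_pow_right₀ (by norm_num) hJ
    linarith
  set K : ℕ := J * 4 ^ J with hK
  have hK0 : 0 < K := by positivity
  obtain ⟨γ, hγ⟩ := hPATHS V G f R E Δ J K H hK0 hEJ (by linarith)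
  obtain ⟨j, hjJ, T, hT, hTcard⟩ := hSCALE V G f E J K γ hE hJ hK0 hγ
  set m : ℕ := 4 ^ (J + 2) with hm
  have hmQ : (m : ℝ) = 16 * Q := by
    rw [hm, hQ]; push_cast; ring
  have hm1 : 1 ≤ m := Nat.one_le_pow _ _ (by norm_num)
  obtain ⟨hWfin, hWcard⟩ := hCELL V G f R E Δ m H hm1 (by rw [hmQ]; linarith)
  set q : ℝ := (4 : ℝ) ^ j with hq
  have hq1 : 1 ≤ q := one_le_pow₀ (by norm_num)
  have hqQ : q ≤ Q := pow_le_pow_right₀ (by norm_num) hjJ
  set τ : ℝ := 10 * E / (J * 4 ^ j) with hτ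
  have hJr : (1 : ℝ) ≤ (J : ℝ) := by exact_mod_cast hJ
  have hτ0 : 0 < τ := by positivity
  -- the set of pairs
  set N : V → Finset V := fun v => if h : (G.neighborSet v).Finite then h.toFinset else ∅ with hN
  set P : Finset (Σ _ : V, V) := hWfin.toFinset.sigma N with hP
  -- basic facts about the elements of T
  have hfact : ∀ x ∈ T, (x.2.2 : ℝ) < 2 * q ∧ x.2.2 < 2 * 4 ^ J := by
    intro x hx
    obtain ⟨_, _, _, h4, _⟩ := hT x hx
    constructor
    · have : ((x.2.2 : ℕ) : ℝ) < ((2 * 4 ^ j : ℕ) : ℝ) := by exact_mod_cast h4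
      simpa [hq] using this
    · have : 4 ^ j ≤ 4 ^ J := Nat.pow_le_pow_right (by norm_num) hjJ
      omega
  have hinW : ∀ x ∈ T, |(f (γ x.1 x.2.1 x.2.2)).re| ≤ 2 * m ∧
      |(f (γ x.1 x.2.1 x.2.2)).im| ≤ 2 * m := by
    intro x hx
    obtain ⟨h1, h2, h3, h4, h5⟩ := hT x hx
    obtain ⟨hf1, hf2⟩ := hfact x hx
    obtain ⟨p1, p2, p3, p4⟩ := hγ x.1 h1 x.2.1 h2
    obtain ⟨r1, r2⟩ := p4 x.2.2 hf2.le
    have hi0 : (0 : ℝ) ≤ (x.2.2 : ℝ) := by positivity
    have hsq : Real.sqrt (10 * E * x.2.2) ≤ 9 / 4 * Q := by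
      apply Real.sqrt_le_iff.mpr
      constructor
      · positivity
      · have : (x.2.2 : ℝ) ≤ 2 * Q := by linarith
        have hE4 : E ≤ Q / 4 := by linarith
        have : 10 * E * x.2.2 ≤ 10 * (Q / 4) * (2 * Q) := by
          apply mul_le_mul _ this hi0 (by positivity)
          linarith
        nlinarith
    have hnorm : ‖f (γ x.1 x.2.1 x.2.2) - lp x.1‖ ≤ 6 * Q := by
      refine (norm_le_re_im _ ((x.2.1 : ℝ) / K)).trans ?_
      have habs : |re' (f (γ x.1 x.2.1 x.2.2) - lp x.1) (uv (x.2.1 / K))| ≤ x.2.2 + 6 * E := by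
        have := abs_le.mp r1
        rw [abs_le]
        constructor <;> linarith
      linarith
    have hlp : |(lp x.1).re| ≤ 16 * Q ∧ |(lp x.1).im| ≤ 16 * Q := by
      rw [Finset.mem_product, Finset.mem_Ico, Finset.mem_Ico] at h1
      obtain ⟨⟨a1, a2⟩, ⟨b1, b2⟩⟩ := h1
      have e : ((4 ^ (J + 2) : ℤ) : ℝ) = 16 * Q := by
        rw [hQ]; push_cast; ring
      constructor
      · show |((x.1.1 : ℤ) : ℝ)| ≤ _
        have a1' : (0 : ℝ) ≤ ((x.1.1 : ℤ) : ℝ) := by exact_mod_cast a1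
        have a2' : ((x.1.1 : ℤ) : ℝ) < ((4 ^ (J + 2) : ℤ) : ℝ) := by exact_mod_cast a2
        rw [abs_of_nonneg a1']; linarith
      · show |((x.1.2 : ℤ) : ℝ)| ≤ _
        have a1' : (0 : ℝ) ≤ ((x.1.2 : ℤ) : ℝ) := by exact_mod_cast b1
        have a2' : ((x.1.2 : ℤ) : ℝ) < ((4 ^ (J + 2) : ℤ) : ℝ) := by exact_mod_cast b2
        rw [abs_of_nonneg a1']; linarith
    have hre := Complex.abs_re_le_norm (f (γ x.1 x.2.1 x.2.2) - lp x.1)
    have him := Complex.abs_im_le_norm (f (γ x.1 x.2.1 x.2.2) - lp x.1)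
    rw [Complex.sub_re] at hre
    rw [Complex.sub_im] at him
    have t1 := abs_sub_abs_le_abs_sub (f (γ x.1 x.2.1 x.2.2)).re (lp x.1).re
    have t2 := abs_sub_abs_le_abs_sub (f (γ x.1 x.2.1 x.2.2)).im (lp x.1).im
    rw [hmQ]
    constructor
    · linarith [hlp.1]
    · linarith [hlp.2]
  have hadj : ∀ x ∈ T, G.Adj (γ x.1 x.2.1 x.2.2) (γ x.1 x.2.1 (x.2.2 + 1)) := by
    intro x hx
    obtain ⟨h1, h2, h3, h4, h5⟩ := hT x hx
    obtain ⟨hf1, hf2⟩ := hfact x hx
    exact (hγ x.1 h1 x.2.1 h2).1 x.2.2 hf2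
  have hWR : ∀ v, |(f v).re| ≤ 2 * m ∧ |(f v).im| ≤ 2 * m → ‖f v‖ ≤ R := by
    intro v hv
    have := Complex.norm_le_abs_re_add_abs_im (f v)
    rw [hmQ] at hv
    linarith [hv.1, hv.2]
  set φ : (ℤ × ℤ) × ℕ × ℕ → (Σ _ : V, V) := fun x => ⟨γ x.1 x.2.1 x.2.2, γ x.1 x.2.1 (x.2.2 + 1)⟩
    with hφ
  have hmaps : ∀ x ∈ T, φ x ∈ P := by
    intro x hx
    rw [hP, Finset.mem_sigma]
    have hw := hinW x hx
    constructor
    · simpa [hφ] using hw
    · have hdeg := (H.deg _ (hWR _ hw)).1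
      simp only [hφ, hN]
      rw [dif_pos hdeg]
      simpa using hadj x hx
  have hPcard : (P.card : ℝ) ≤ 36 * (m : ℝ) ^ 2 * (Δ : ℝ) ^ (3 * E + 1) * Δ := by
    have h1 : P.card ≤ hWfin.toFinset.card * Δ := by
      rw [hP, Finset.card_sigma]
      refine Finset.sum_le_card_nsmul _ _ _ ?_
      intro v hv
      have hv' : |(f v).re| ≤ 2 * m ∧ |(f v).im| ≤ 2 * m := by simpa using hv
      obtain ⟨d1, d2⟩ := H.deg v (hWR v hv')
      simp only [hN]
      rw [dif_pos d1]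
      rwa [Set.ncard_eq_toFinset_card _ d1] at d2
    have h2 : ((hWfin.toFinset.card : ℕ) : ℝ) ≤ 36 * (m : ℝ) ^ 2 * (Δ : ℝ) ^ (3 * E + 1) := by
      rwa [Set.ncard_eq_toFinset_card _ hWfin] at hWcard
    calc (P.card : ℝ) ≤ ((hWfin.toFinset.card * Δ : ℕ) : ℝ) := by exact_mod_cast h1
      _ = (hWfin.toFinset.card : ℝ) * Δ := by push_cast; ring
      _ ≤ _ := mul_le_mul_of_nonneg_right h2 (by positivity)
  -- the fibres
  set B : ℝ := 2 * K * Real.sqrt (8 * τ) * q * (900 * E ^ 2 * 2 ^ j) with hB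
  have hB0 : 0 ≤ B := by positivity
  have hq2 : q = (2 : ℝ) ^ j * 2 ^ j := by
    rw [hq, ← mul_pow]; norm_num
  have hKs : 1 ≤ (K : ℝ) * Real.sqrt (8 * τ) := by
    have hKr : (K : ℝ) = J * Q := by rw [hK, hQ]; push_cast; ring
    have h1 : (1 : ℝ) ≤ ((K : ℝ) * Real.sqrt (8 * τ)) ^ 2 := by
      rw [mul_pow, Real.sq_sqrt (by positivity), hKr, hτ, ← hq]
      have hq0 : 0 < q := by linarith
      have e1 : (J * Q) ^ 2 * (8 * (10 * E / (J * q))) = 80 * E * J * Q * (Q / q) := by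
        have : (J : ℝ) ≠ 0 := by positivity
        field_simp
        ring
      rw [e1]
      have e2 : 1 ≤ Q / q := by rw [le_div_iff₀ hq0]; linarith
      have e3 : 1 ≤ 80 * E * J * Q := by
        have : 1 ≤ E * J := by nlinarith
        nlinarith
      nlinarith
    have h0 : 0 ≤ (K : ℝ) * Real.sqrt (8 * τ) := by positivity
    exact (one_le_sq_iff₀ h0).mp h1
  have hfib : ∀ b ∈ P, (((T.filter (fun x => φ x = b)).card : ℕ) : ℝ) ≤ B := by
    intro b hb
    set F := T.filter (fun x => φ x = b) with hF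
    by_cases hne : F.Nonempty
    swap
    · rw [Finset.not_nonempty_iff_eq_empty] at hne
      rw [hne]; simpa using hB0
    obtain ⟨x0, hx0⟩ := hne
    have hFm : ∀ x ∈ F, x ∈ T ∧ γ x.1 x.2.1 x.2.2 = b.1 ∧ γ x.1 x.2.1 (x.2.2 + 1) = b.2 := by
      intro x hx
      rw [hF, Finset.mem_filter] at hx
      refine ⟨hx.1, ?_, ?_⟩
      · rw [← hx.2]
      · rw [← hx.2]
    have hadjb : G.Adj b.1 b.2 := by
      obtain ⟨a1, a2, a3⟩ := hFm x0 hx0
      rw [← a2, ← a3]
      exact hadj x0 a1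
    have hh : ‖f b.2 - f b.1‖ ≤ 1 := by
      have := H.lip b.2 b.1
      rw [SimpleGraph.dist_eq_one_iff_adj.mpr hadjb.symm] at this
      simpa using this
    set S1 : Finset ℕ := F.image (fun x => x.2.1) with hS1
    have hS1card : (S1.card : ℝ) ≤ 2 * K * Real.sqrt (8 * τ) := by
      have := hDIR K (f b.2 - f b.1) τ S1 hK0 hh hτ0.le (by
        intro k hk
        rw [hS1, Finset.mem_image] at hk
        obtain ⟨x, hx, rfl⟩ := hk
        obtain ⟨a1, a2, a3⟩ := hFm x hx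
        obtain ⟨h1, h2, h3, h4, h5⟩ := hT x a1
        rw [a2, a3] at h5
        exact ⟨h2, h5⟩)
      linarith
    set S2 : Finset ℕ := Finset.Ico (4 ^ j) (2 * 4 ^ j) with hS2
    have hS2card : (S2.card : ℝ) = q := by
      rw [hS2, Nat.card_Ico]
      have : 2 * 4 ^ j - 4 ^ j = 4 ^ j := by omega
      rw [this, hq]; push_cast; ring
    have hmapsF : ∀ x ∈ F, x.2 ∈ S1 ×ˢ S2 := by
      intro x hx
      rw [Finset.mem_product]
      obtain ⟨a1, _, _⟩ := hFm x hx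
      obtain ⟨h1, h2, h3, h4, h5⟩ := hT x a1
      refine ⟨?_, ?_⟩
      · rw [hS1, Finset.mem_image]
        exact ⟨x, hx, rfl⟩
      · rw [hS2, Finset.mem_Ico]
        exact ⟨h3, h4⟩
    have hFcard : F.card = ∑ c ∈ S1 ×ˢ S2, (F.filter (fun x => x.2 = c)).card :=
      Finset.card_eq_sum_card_fiberwise hmapsF
    have hin : ∀ c ∈ S1 ×ˢ S2, (((F.filter (fun x => x.2 = c)).card : ℕ) : ℝ) ≤
        900 * E ^ 2 * 2 ^ j := by
      intro c hc
      have hcard : (F.filter (fun x => x.2 = c)).card =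
          ((F.filter (fun x => x.2 = c)).image (fun x => x.1)).card := by
        rw [Finset.card_image_of_injOn]
        intro x hx y hy hxy
        simp only [Finset.coe_filter, Set.mem_setOf_eq] at hx hy
        exact Prod.ext hxy (hx.2.trans hy.2.symm)
      rw [hcard]
      have := hLAT (f b.1 - (c.2 : ℝ) * uv (c.1 / K)) (uv (c.1 / K)) (6 * E) (6 * E * 2 ^ j)
        ((F.filter (fun x => x.2 = c)).image (fun x => x.1)) (norm_uv _) (by linarith) (by
          have : (1 : ℝ) ≤ 2 ^ j := one_le_pow₀ (by norm_num)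
          nlinarith) (by
          intro z hz
          rw [Finset.mem_image] at hz
          obtain ⟨x, hx, rfl⟩ := hz
          rw [Finset.mem_filter] at hx
          obtain ⟨hxF, hxc⟩ := hx
          obtain ⟨a1, a2, a3⟩ := hFm x hxF
          obtain ⟨h1, h2, h3, h4, h5⟩ := hT x a1
          obtain ⟨hf1, hf2⟩ := hfact x a1
          obtain ⟨p1, p2, p3, p4⟩ := hγ x.1 h1 x.2.1 h2
          obtain ⟨r1, r2⟩ := p4 x.2.2 hf2.le
          rw [a2] at r1 r2
          rw [← hxc]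
          have e : f b.1 - ((x.2.2 : ℕ) : ℝ) * uv (x.2.1 / K) - lp x.1 =
              (f b.1 - lp x.1) - ((x.2.2 : ℕ) : ℝ) * uv (x.2.1 / K) := by ring
          rw [e, re'_sub_smul, im'_sub_smul]
          refine ⟨r1, r2.trans ?_⟩
          have h2j : (1 : ℝ) ≤ 2 ^ j := one_le_pow₀ (by norm_num)
          have hsq : Real.sqrt (10 * E * x.2.2) ≤ 5 * E * 2 ^ j := by
            apply Real.sqrt_le_iff.mpr
            constructor
            · positivity
            · have hi0 : (0 : ℝ) ≤ (x.2.2 : ℝ) := by positivity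
              have b1 : 10 * E * (x.2.2 : ℝ) ≤ 10 * E * (2 * q) :=
                mul_le_mul_of_nonneg_left hf1.le (by positivity)
              have b2 : (5 * E * 2 ^ j) ^ 2 = 25 * E ^ 2 * q := by
                rw [hq2]; ring
              rw [b2]
              have b3 : E ≤ E ^ 2 := by nlinarith
              have hq0 : 0 ≤ q := by linarith
              have b4 : E * q ≤ E ^ 2 * q := mul_le_mul_of_nonneg_right b3 hq0
              nlinarith
          nlinarith)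
      calc _ ≤ 25 * (6 * E) * (6 * E * 2 ^ j) := this
        _ = _ := by ring
    calc ((F.card : ℕ) : ℝ) = ∑ c ∈ S1 ×ˢ S2, (((F.filter (fun x => x.2 = c)).card : ℕ) : ℝ) := by
          rw [hFcard]; push_cast; rfl
      _ ≤ ∑ c ∈ S1 ×ˢ S2, (900 * E ^ 2 * 2 ^ j) := Finset.sum_le_sum hin
      _ = (S1.card : ℝ) * S2.card * (900 * E ^ 2 * 2 ^ j) := by
          rw [Finset.sum_const, nsmul_eq_mul, Finset.card_product]; push_cast; ring
      _ ≤ (2 * K * Real.sqrt (8 * τ)) * q * (900 * E ^ 2 * 2 ^ j) := by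
          rw [hS2card]
          apply mul_le_mul_of_nonneg_right _ (by positivity)
          exact mul_le_mul_of_nonneg_right hS1card (by positivity)
      _ = B := by rw [hB]
  have hTle : (T.card : ℝ) ≤ P.card * B := by
    have h1 : T.card = ∑ b ∈ P, (T.filter (fun x => φ x = b)).card :=
      Finset.card_eq_sum_card_fiberwise hmaps
    calc (T.card : ℝ) = ∑ b ∈ P, (((T.filter (fun x => φ x = b)).card : ℕ) : ℝ) := by
          rw [h1]; push_cast; rfl
      _ ≤ ∑ b ∈ P, B := Finset.sum_le_sum hfib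
      _ = P.card * B := by rw [Finset.sum_const, nsmul_eq_mul]
  have hΔ0 : (0 : ℝ) < (Δ : ℝ) := by
    have : 0 < Δ := by omega
    exact_mod_cast this
  set X : ℝ := (Δ : ℝ) ^ (3 * E + 2) with hX
  have hX0 : 0 < X := Real.rpow_pos_of_pos hΔ0 _
  have hXe : (Δ : ℝ) ^ (3 * E + 1) * Δ = X := by
    have e : 3 * E + 2 = (3 * E + 1) + 1 := by ring
    rw [hX, e]
    exact (Real.rpow_add_one hΔ0.ne' (3 * E + 1)).symm
  have hX2 : X ^ 2 = (Δ : ℝ) ^ (6 * E + 4) := by
    rw [hX, ← Real.rpow_natCast, ← Real.rpow_mul hΔ0.le]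
    congr 1
    push_cast
    ring
  have hmain := final_ineq E J K (m : ℝ) q (Real.sqrt (8 * τ) * 2 ^ j) X hE hJr
    (by exact_mod_cast hK0) (by positivity) (by linarith) hX0 (by
      rw [mul_pow, Real.sq_sqrt (by positivity), hτ, ← hq]
      have : ((2 : ℝ) ^ j) ^ 2 = q := by rw [hq2]; ring
      rw [this]
      have hq0 : q ≠ 0 := by positivity
      have : (J : ℝ) ≠ 0 := by positivity
      field_simp
      ring) (by
      have hmc : (4 : ℝ) ^ (J + 2) = m := by rw [hm]; push_cast; ring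
      rw [hmc] at hTcard
      calc (m : ℝ) * m * K * q / 2 ≤ T.card := hTcard
        _ ≤ P.card * B := hTle
        _ ≤ (36 * (m : ℝ) ^ 2 * (Δ : ℝ) ^ (3 * E + 1) * Δ) * B :=
            mul_le_mul_of_nonneg_right hPcard hB0
        _ = (36 * (m : ℝ) ^ 2 * X) * B := by rw [← hXe]; ring
        _ = _ := by rw [hB]; ring)
  rw [← hX2]
  exact hmain

end Pool.Agent.Y385.KZN
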